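import Pool.Agent.N286.DE.SumA
import Pool.Agent.H498R2.KlWeil

set_option autoImplicit false

/-! # Exponential sums with Moebius transformations modulo a prime -/

namespace Pool.Agent.J4.H39.MH

open Finset
open Pool.Agent.Helper170.Weyl (e e_add norm_e)
open Pool.Agent.N286.DE (e_std e_val psi_sum cast_ne_zero)

variable {p : ℕ} [Fact p.Prime]

lemma e_nat (h n : ℕ) : e ((h : ℝ) * (n : ℝ) / p) =
    ZMod.stdAddChar (N := p) ((h : ZMod p) * (n : ZMod p)) := by
  have h1 := e_std p ((h * n : ℕ) : ℤ)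
  have h2 : (((h * n : ℕ) : ℤ) : ZMod p) = (h : ZMod p) * n := by push_cast; rfl
  rw [h2] at h1
  rw [← h1]
  congr 1
  push_cast
  ring

/-- Weil's bound, with an arbitrary first parameter -/
lemma kl_le (hp2 : p ≠ 2) (α β : ZMod p) (hβ : β ≠ 0) :
    ‖∑ z : ZMod p, (if z = 0 then (0 : ℂ) else
      ZMod.stdAddChar (N := p) (α * z + β * z⁻¹))‖ ≤ 2 * Real.sqrt p := by
  by_cases hα : α = 0
  · subst hα
    have h1 : ∑ z : ZMod p, (if z = 0 then (0 : ℂ) else
        ZMod.stdAddChar (N := p) (0 * z + β * z⁻¹)) =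
        ∑ z : ZMod p, (ZMod.stdAddChar (N := p) (β * z⁻¹) - if z = 0 then (1 : ℂ) else 0) := by
      refine sum_congr rfl fun z _ => ?_
      by_cases hz : z = 0
      · simp [hz]
      · simp [hz]
    have h2 : ∑ z : ZMod p, (ZMod.stdAddChar (N := p) (β * z⁻¹) : ℂ) = 0 := by
      have h3 : ∑ z : ZMod p, (ZMod.stdAddChar (N := p) (β * z⁻¹) : ℂ) =
          ∑ z : ZMod p, (ZMod.stdAddChar (N := p) (z * β) : ℂ) := by
        rw [← Equiv.sum_comp (Equiv.inv (ZMod p))]
        refine sum_congr rfl fun z _ => ?_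
        rw [Equiv.inv_apply, inv_inv, mul_comm]
      rw [h3, AddChar.sum_mulShift _ (ZMod.isPrimitive_stdAddChar p), if_neg hβ]
      simp
    rw [h1, sum_sub_distrib, h2, sum_ite_eq' univ (0 : ZMod p) (fun _ => (1 : ℂ)),
      if_pos (mem_univ _), zero_sub, norm_neg, norm_one]
    have h4 : (1 : ℝ) ≤ Real.sqrt p := by
      rw [Real.one_le_sqrt]
      exact_mod_cast (Fact.out : p.Prime).one_le
    linarith
  · have h1 : ringChar (ZMod p) ≠ 2 := by
      rw [ZMod.ringChar_zmod_n]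
      exact hp2
    have h2 := Pool.Agent.H498R2.Kl.kloosterman_le h1 (ZMod.isPrimitive_stdAddChar p) hα hβ
    rw [ZMod.card] at h2
    exact h2

/-- the value of the Moebius transformation -/
def mo (p : ℕ) (a b c d : ZMod p) (x : ℕ) : ℕ := ((a * x + b) * (c * x + d)⁻¹).val

lemma mo_lt (a b c d : ZMod p) (x : ℕ) : mo p a b c d x < p := ZMod.val_lt _

lemma sum_range_zmod (F : ZMod p → ℂ) : ∑ s ∈ range p, F (s : ZMod p) = ∑ y : ZMod p, F y := by
  refine sum_nbij' (fun s => (s : ZMod p)) (fun y => y.val) ?_ ?_ ?_ ?_ ?_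
  · intro s _
    exact mem_univ _
  · intro y _
    exact mem_range.2 (ZMod.val_lt y)
  · intro s hs
    show ((s : ZMod p)).val = s
    rw [ZMod.val_natCast, Nat.mod_eq_of_lt (mem_range.1 hs)]
  · intro y _
    exact ZMod.natCast_zmod_val y
  · intro s _
    rfl

/-- the complete sums with a Moebius transformation -/
lemma mo_sum (hp2 : p ≠ 2) (a b c d : ZMod p) (hc : c ≠ 0) (hdet : a * d - b * c ≠ 0)
    (s t h : ZMod p) (hh : h ≠ 0) :
    ‖∑ y : ZMod p, ZMod.stdAddChar (N := p)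
      (t * y + h * ((a * (s + y) + b) * (c * (s + y) + d)⁻¹))‖ ≤ 2 * Real.sqrt p + 1 := by
  set ψ := ZMod.stdAddChar (N := p) with hψ
  -- the substitution `z = c (s + y) + d`
  let φ : ZMod p ≃ ZMod p :=
    { toFun := fun z => (z - d) * c⁻¹ - s
      invFun := fun y => c * (s + y) + d
      left_inv := by
        intro z
        show c * (s + ((z - d) * c⁻¹ - s)) + d = z
        field_simp
        ring
      right_inv := by
        intro y
        show (c * (s + y) + d - d) * c⁻¹ - s = y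
        field_simp
        ring }
  have h1 : ∑ y : ZMod p, ψ (t * y + h * ((a * (s + y) + b) * (c * (s + y) + d)⁻¹)) =
      ∑ z : ZMod p, ψ (t * ((z - d) * c⁻¹ - s) + h * ((a * ((z - d) * c⁻¹) + b) * z⁻¹)) := by
    rw [← Equiv.sum_comp φ]
    refine sum_congr rfl fun z _ => ?_
    show ψ (t * ((z - d) * c⁻¹ - s) + h * ((a * (s + ((z - d) * c⁻¹ - s)) + b) *
      (c * (s + ((z - d) * c⁻¹ - s)) + d)⁻¹)) = _
    have h2 : s + ((z - d) * c⁻¹ - s) = (z - d) * c⁻¹ := by ring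
    have h3 : c * ((z - d) * c⁻¹) + d = z := by field_simp; ring
    rw [h2, h3]
  have hβ : h * (b - a * d * c⁻¹) ≠ 0 := by
    refine mul_ne_zero hh ?_
    intro h0
    apply hdet
    have h2 : a * d - b * c = -(c * (b - a * d * c⁻¹)) := by field_simp; ring
    rw [h2, h0, mul_zero, neg_zero]
  have h4 : ∀ z : ZMod p, ψ (t * ((z - d) * c⁻¹ - s) + h * ((a * ((z - d) * c⁻¹) + b) * z⁻¹)) =
      ψ (h * a * c⁻¹ - t * d * c⁻¹ - t * s) *
        (if z = 0 then (0 : ℂ) else ψ (t * c⁻¹ * z + h * (b - a * d * c⁻¹) * z⁻¹)) +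
      (if z = 0 then ψ (t * (-d * c⁻¹ - s)) else 0) := by
    intro z
    by_cases hz : z = 0
    · subst hz
      simp
    · rw [if_neg hz, if_neg hz, add_zero, ← AddChar.map_add_eq_mul]
      congr 1
      field_simp
      ring
  rw [h1, sum_congr rfl (fun z _ => h4 z), sum_add_distrib, ← mul_sum]
  refine (norm_add_le _ _).trans ?_
  rw [norm_mul, AddChar.norm_apply, one_mul, sum_ite_eq' univ (0 : ZMod p) (fun _ =>
    (ψ (t * (-d * c⁻¹ - s)) : ℂ)), if_pos (mem_univ _), AddChar.norm_apply]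
  have := kl_le hp2 (t * c⁻¹) _ hβ
  linarith

/-- the sums of the criterion -/
theorem sum_le (hp2 : p ≠ 2) (a b c d : ZMod p) (hc : c ≠ 0) (hdet : a * d - b * c ≠ 0)
    (s t : ℕ) (h : Fin 1 → ℕ) (hhp : ∀ i, h i < p) (hh : h ≠ 0) :
    ‖∑ x ∈ range p, e ((t : ℝ) * x / p) *
      ∏ i, e ((h i : ℝ) * ((mo p a b c d (s + x) : ℕ) : ℝ) / p)‖ ≤ 2 * Real.sqrt p + 1 := by
  have hh0 : (h 0 : ZMod p) ≠ 0 := by
    have h1 := cast_ne_zero (p := p) h hhp hh
    intro h0
    apply h1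
    funext i
    have hi : i = 0 := Subsingleton.elim _ _
    subst hi
    exact h0
  have h1 : ∀ x ∈ range p, e ((t : ℝ) * x / p) *
      ∏ i, e ((h i : ℝ) * ((mo p a b c d (s + x) : ℕ) : ℝ) / p) =
      ZMod.stdAddChar (N := p) ((t : ZMod p) * (x : ZMod p) + (h 0 : ZMod p) *
        ((a * ((s : ZMod p) + (x : ZMod p)) + b) * (c * ((s : ZMod p) + (x : ZMod p)) + d)⁻¹)) := by
    intro x _
    rw [Fin.prod_univ_one, e_nat, e_nat, ← AddChar.map_add_eq_mul]
    congr 2
    unfold mo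
    rw [ZMod.natCast_zmod_val]
    push_cast
    rfl
  rw [sum_congr rfl h1, sum_range_zmod (fun y : ZMod p => (ZMod.stdAddChar (N := p)
    ((t : ZMod p) * y + (h 0 : ZMod p) *
        ((a * ((s : ZMod p) + y) + b) * (c * ((s : ZMod p) + y) + d)⁻¹)) : ℂ))]
  exact mo_sum hp2 a b c d hc hdet s t _ hh0

end Pool.Agent.J4.H39.MH
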